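import Pool.Agent.E8helper61.SI.Stm

/-! LIN: a numerical bound. -/

set_option autoImplicit false

open Finset

namespace Pool.Agent.E8helper79.SI

open Pool.Agent.E8helper61.SI (Bs LinStatement)

theorem step26 (r : ℕ) (h : 26 ≤ r) : (r + 2) ^ 5 * 3125 ≤ 8192 * r ^ 5 := by
  have h1 : 26 * (r + 2) ≤ 28 * r := by omega
  have h2 : (26 * (r + 2)) ^ 5 ≤ (28 * r) ^ 5 := Nat.pow_le_pow_left h1 5
  rw [mul_pow, mul_pow] at h2
  norm_num at h2
  omega

theorem grow (r : ℕ) (h : 26 ≤ r) : ((r + 1) * r) ^ 5 * 3125 ^ r ≤ 3125 * 8192 ^ r := by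
  induction r, h using Nat.le_induction with
  | base => norm_num
  | succ r hr ih =>
    calc ((r + 1 + 1) * (r + 1)) ^ 5 * 3125 ^ (r + 1) =
        ((r + 2) ^ 5 * 3125) * ((r + 1) ^ 5 * 3125 ^ r) := by ring
      _ ≤ (8192 * r ^ 5) * ((r + 1) ^ 5 * 3125 ^ r) := Nat.mul_le_mul_right _ (step26 r hr)
      _ = 8192 * (((r + 1) * r) ^ 5 * 3125 ^ r) := by ring
      _ ≤ 8192 * (3125 * 8192 ^ r) := Nat.mul_le_mul_left _ ih
      _ = 3125 * 8192 ^ (r + 1) := by ring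

theorem bs_le {r t : ℕ} (h : t ≤ r) : Bs r t * 4 ^ (r - t) ≤ 5 ^ r := by
  have h1 : (5 : ℕ) ^ r = ∑ i ∈ range (r + 1), r.choose i * 4 ^ (r - i) := by
    have h2 := add_pow (1 : ℕ) 4 r
    rw [show (1 : ℕ) + 4 = 5 from rfl] at h2
    rw [h2]
    exact Finset.sum_congr rfl fun i _ => by
      rw [one_pow, one_mul, mul_comm, Nat.cast_id]
  unfold Bs
  rw [h1, Finset.sum_mul]
  refine le_trans (Finset.sum_le_sum (g := fun i => r.choose i * 4 ^ (r - i)) fun i hi => ?_)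
    (Finset.sum_le_sum_of_subset (Finset.range_subset_range.2 (by omega)))
  rw [Finset.mem_range] at hi
  exact Nat.mul_le_mul_left _ (Nat.pow_le_pow_right (by norm_num) (by omega))

theorem lin : LinStatement := by
  intro r t hr ht
  by_cases h26 : 26 ≤ r
  · have htr : t ≤ r := by omega
    have h1 := bs_le htr
    have h2 : (Bs r t) ^ 5 * 256 ^ r ≤ 3125 ^ r := by
      have h3 : (Bs r t * 4 ^ (r - t)) ^ 5 ≤ (5 ^ r) ^ 5 := Nat.pow_le_pow_left h1 5
      have h4 : (256 : ℕ) ^ r ≤ (4 ^ (r - t)) ^ 5 := by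
        rw [show (256 : ℕ) = 4 ^ 4 from by norm_num, ← pow_mul, ← pow_mul]
        exact Nat.pow_le_pow_right (by norm_num) (by omega)
      have h5 : ((5 : ℕ) ^ r) ^ 5 = 3125 ^ r := by
        rw [← pow_mul, mul_comm, pow_mul]
        norm_num
      rw [mul_pow, h5] at h3
      exact (Nat.mul_le_mul_left _ h4).trans h3
    have h3 : 3125 * (((r + 1) * t) ^ 5 * 3125 ^ r) ≤ 3125 * 8192 ^ r := by
      refine le_trans ?_ (grow r h26)
      calc 3125 * (((r + 1) * t) ^ 5 * 3125 ^ r) = ((r + 1) * (5 * t)) ^ 5 * 3125 ^ r := by ring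
        _ ≤ ((r + 1) * r) ^ 5 * 3125 ^ r :=
          Nat.mul_le_mul_right _ (Nat.pow_le_pow_left (Nat.mul_le_mul_left _ ht) 5)
    have h4 : ((r + 1) * t) ^ 5 * 3125 ^ r ≤ 8192 ^ r := Nat.le_of_mul_le_mul_left h3 (by norm_num)
    have h5 : (((r + 1) * t * Bs r t) ^ 5) * 256 ^ r ≤ (2 ^ r) ^ 5 * 256 ^ r := by
      calc (((r + 1) * t * Bs r t) ^ 5) * 256 ^ r = ((r + 1) * t) ^ 5 * ((Bs r t) ^ 5 * 256 ^ r) := by
            ring
        _ ≤ ((r + 1) * t) ^ 5 * 3125 ^ r := Nat.mul_le_mul_left _ h2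
        _ ≤ 8192 ^ r := h4
        _ = (2 ^ r) ^ 5 * 256 ^ r := by
            rw [← pow_mul, mul_comm r 5, pow_mul, ← mul_pow]
            norm_num
    have h6 : ((r + 1) * t * Bs r t) ^ 5 ≤ (2 ^ r) ^ 5 :=
      Nat.le_of_mul_le_mul_right h5 (by positivity)
    exact (Nat.pow_le_pow_iff_left (by norm_num)).1 h6
  · have h25 : r ≤ 25 := by omega
    have ht5 : t ≤ 5 := by omega
    unfold Bs
    interval_cases r <;> interval_cases t <;> first
      | omega
      | decide +kernel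

end Pool.Agent.E8helper79.SI
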