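import Pool.Agent.E8helper61.SI.Stm2

/-! PW: an elementary estimate. -/

set_option autoImplicit false

namespace Pool.Agent.E8helper79.SI

open Pool.Agent.E8helper61.SI (PwStatement)

theorem pws : PwStatement := by
  intro n r j θ hj hn
  have h0 : (0 : ℝ) ≤ n := Nat.cast_nonneg n
  have h1 : (n : ℝ) ^ j ≤ (2 : ℝ) ^ ((((r : ℝ) - 1) / 2 - θ) * j) := by
    rw [Real.rpow_mul (by norm_num), Real.rpow_natCast]
    exact pow_le_pow_left₀ h0 hn j
  have h2 : ((2 : ℝ) ^ (j * (r - j) + j.choose 2) : ℝ) =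
      (2 : ℝ) ^ (((j * (r - j) + j.choose 2 : ℕ) : ℝ)) := (Real.rpow_natCast _ _).symm
  rw [h2]
  have h3 : (0 : ℝ) < (2 : ℝ) ^ (((j * (r - j) + j.choose 2 : ℕ) : ℝ)) :=
    Real.rpow_pos_of_pos (by norm_num) _
  rw [div_le_iff₀ h3, ← Real.rpow_add (by norm_num)]
  refine h1.trans (Real.rpow_le_rpow_of_exponent_le (by norm_num) ?_)
  have hj' : (j : ℝ) ≤ r := by exact_mod_cast hj
  have hj0 : (0 : ℝ) ≤ j := Nat.cast_nonneg j
  push_cast [Nat.cast_sub hj, Nat.cast_choose_two]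
  nlinarith [mul_nonneg hj0 (sub_nonneg.2 hj')]

end Pool.Agent.E8helper79.SI
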